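import Pool.Agent.KS6_46.MA.Sub

/-!
# The σ-finite chain condition and measures
-/

set_option autoImplicit false

namespace Pool.Agent.KS6_46.MA

open Pool.Agent.H648BA Filter Topology Function
open scoped ENNReal

variable {B : Type*} [CompleteBooleanAlgebra B]

/-- The principal ideal below `c` satisfies the σ-finite chain condition (Horn and Tarski): the set
of the nonzero elements `b ≤ c` is the union of countably many sets none of which contains an
infinite set of pairwise disjoint elements. -/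
def SigmaFiniteBelow (c : B) : Prop :=
  ∃ C : ℕ → Set B, (⋃ n, C n) = {b : B | b ≠ ⊥ ∧ b ≤ c} ∧
    ∀ n, ∀ D ⊆ C n, D.PairwiseDisjoint id → D.Finite

/-- upwards closed pieces, in terms of sequences -/
lemma exists_pieces {c : B} (h : SigmaFiniteBelow c) : ∃ C : ℕ → Set B,
    (∀ b, b ≠ ⊥ → b ≤ c → ∃ n, b ∈ C n) ∧ (∀ n b b', b ∈ C n → b ≤ b' → b' ∈ C n) ∧
    ∀ n, ∀ f : ℕ → B, Pairwise (Disjoint on f) → ∃ i, f i ∉ C n := by
  obtain ⟨C, hC, hfin⟩ := h
  refine ⟨fun n => {b | ∃ d ∈ C n, d ≤ b}, fun b hb hbc => ?_, fun n b b' => ?_,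
    fun n f hf => ?_⟩
  · have : b ∈ ⋃ n, C n := by
      rw [hC]
      exact ⟨hb, hbc⟩
    obtain ⟨n, hn⟩ := Set.mem_iUnion.1 this
    exact ⟨n, b, hn, le_rfl⟩
  · rintro ⟨d, hd, hdb⟩ hbc
    exact ⟨d, hd, hdb.trans hbc⟩
  · by_contra hcon
    push Not at hcon
    choose d hd hdf using hcon
    have hne : ∀ i, d i ≠ ⊥ := by
      intro i
      have : d i ∈ ⋃ n, C n := Set.mem_iUnion.2 ⟨n, hd i⟩
      rw [hC] at this
      exact this.1
    have hdis : ∀ i j, i ≠ j → Disjoint (d i) (d j) := fun i j hij =>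
      (hf hij).mono (hdf i) (hdf j)
    have hinj : Injective d := by
      intro i j hij
      by_contra h1
      have h2 := hdis i j h1
      rw [hij, disjoint_self] at h2
      exact hne j h2
    refine (Set.infinite_range_of_injective hinj) (hfin n (Set.range d) ?_ ?_)
    · rintro _ ⟨i, rfl⟩
      exact hd i
    · rintro _ ⟨i, rfl⟩ _ ⟨j, rfl⟩ hij
      exact hdis i j fun h1 => hij (by rw [h1])

/-- the elements which cannot be approximated from below by elements outside `C` -/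
def good (C : Set B) : Set B :=
  {a | a ≠ ⊥ ∧ ∀ x : ℕ → B, Monotone x → ⨆ m, x m = a → ∃ m, x m ∈ C}

/-- every nonzero element is good for some piece -/
lemma exists_good (hB : Locally B) {e : B} {C : ℕ → Set B}
    (hC : ∀ b, b ≠ ⊥ → b ≤ e → ∃ n, b ∈ C n)
    (hup : ∀ n b c, b ∈ C n → b ≤ c → c ∈ C n) {a : B} (ha : a ≠ ⊥) (hae : a ≤ e) :
    ∃ n, a ∈ good (C n) := by
  by_contra hcon
  have h1 : ∀ n, ∃ x : ℕ → B, Monotone x ∧ ⨆ m, x m = a ∧ ∀ m, x m ∉ C n := by
    intro n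
    by_contra h2
    push Not at h2
    exact hcon ⟨n, ha, fun x hx hs => h2 x hx hs⟩
  choose x hmono hsup hnot using h1
  obtain ⟨f, c, hc, hcf⟩ := weak_dist hB ha x hsup
  have hca : c ≤ a := by
    refine (hcf 0).trans ?_
    rw [← hsup 0, ← iSup_pu (x 0)]
    exact le_iSup (pu (x 0)) (f 0)
  obtain ⟨n, hn⟩ := hC c hc (hca.trans hae)
  refine hnot n (f n) (hup n c _ hn ((hcf n).trans ?_))
  apply Finset.sup_le
  intro i hi
  exact hmono n (Finset.mem_range.1 hi).le

/-- no sequence of good elements converges to `⊥` -/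
lemma good_tails {C : Set B} (hup : ∀ b c, b ∈ C → b ≤ c → c ∈ C)
    (hfin : ∀ f : ℕ → B, Pairwise (Disjoint on f) → ∃ i, f i ∉ C) {a : ℕ → B}
    (ha : ∀ n, a n ∈ good C) : ⨅ k, ⨆ i, a (k + i) ≠ ⊥ := by
  intro hbot
  let b : ℕ → B := fun k => ⨆ i, a (k + i)
  have hanti : Antitone b := by
    apply antitone_nat_of_succ_le
    intro k
    apply iSup_le
    intro i
    refine le_iSup_of_le (i + 1) (le_of_eq ?_)
    congr 1
    omega
  have hab : ∀ k, a k ≤ b k := fun k => le_iSup_of_le 0 (by simp)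
  have h1 : ∀ k, ∃ m, k < m ∧ a k \ b m ∈ C := by
    intro k
    have hsup : ⨆ m, a k \ b m = a k := by
      have h2 : ⨆ m, a k \ b m = a k \ ⨅ m, b m := by
        simp only [sdiff_eq, compl_iInf, inf_iSup_eq]
      have h3 : ⨅ m, b m = ⊥ := hbot
      rw [h2, h3, sdiff_bot]
    obtain ⟨m, hm⟩ := (ha k).2 (fun m => a k \ b m)
      (fun i j hij => sdiff_le_sdiff_left (hanti hij)) hsup
    refine ⟨max m (k + 1), Nat.lt_of_succ_le (le_max_right _ _), hup _ _ hm ?_⟩
    exact sdiff_le_sdiff_left (hanti (le_max_left _ _))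
  choose g hg1 hg2 using h1
  let k : ℕ → ℕ := fun n => Nat.rec 0 (fun _ c => g c) n
  have hk : ∀ n, k (n + 1) = g (k n) := fun _ => rfl
  have hmono : StrictMono k := strictMono_nat_of_lt_succ fun n => by
    rw [hk]
    exact hg1 _
  obtain ⟨i, hi⟩ := hfin (fun n => a (k n) \ b (k (n + 1))) (by
    have key : ∀ i j, i < j → Disjoint (a (k i) \ b (k (i + 1))) (a (k j) \ b (k (j + 1))) := by
      intro i j hij
      have h2 : a (k j) \ b (k (j + 1)) ≤ b (k (i + 1)) :=
        sdiff_le.trans ((hab _).trans (hanti (hmono.monotone hij)))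
      exact disjoint_sdiff_self_left.mono_right h2
    intro i j hij
    rcases lt_or_gt_of_ne hij with h | h
    · exact key i j h
    · exact (key j i h).symm)
  apply hi
  show a (k i) \ b (k (i + 1)) ∈ C
  rw [hk]
  exact hg2 _

/-- measures on complete subalgebras are bounded below on the good elements -/
lemma good_bdd {C : Set B} (hup : ∀ b c, b ∈ C → b ≤ c → c ∈ C)
    (hfin : ∀ f : ℕ → B, Pairwise (Disjoint on f) → ∃ i, f i ∉ C) {A : Set B}
    (hA : IsCompleteSubalgebra A) {μ : B → ℝ} (hμ : IsMeasureOn A μ) :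
    ∃ ε : ℝ, 0 < ε ∧ ∀ a ∈ A, a ∈ good C → ε ≤ μ a := by
  by_contra hcon
  push Not at hcon
  have hex : ∀ i : ℕ, ∃ a ∈ A, a ∈ good C ∧ μ a < (1 / 2 : ℝ) ^ i := fun i => hcon _ (by positivity)
  choose a haA hta hμa using hex
  exact good_tails hup hfin hta (iInf_tails hA hμ haA hμa)

/-- The sets of good elements have positive intersection number. -/
lemma inter_good [Nontrivial B] (hB : Locally B) {C : Set B} (hup : ∀ b c, b ∈ C → b ≤ c → c ∈ C)
    (hfin : ∀ f : ℕ → B, Pairwise (Disjoint on f) → ∃ i, f i ∉ C) :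
    ∃ δ : ℝ, 0 < δ ∧ Inter (good C) δ := by
  classical
  by_contra hcon
  push Not at hcon
  have hex : ∀ j : ℕ, ∃ n : B →₀ ℕ, (∀ b ∈ n.support, b ∈ good C) ∧
      ∀ x : B, x ≠ ⊥ → ∑ b ∈ n.support, (if x ≤ b then (n b : ℝ) else 0) <
        (1 / ((j : ℝ) + 1)) * ∑ b ∈ n.support, (n b : ℝ) := by
    intro j
    have := hcon (1 / ((j : ℝ) + 1)) (by positivity)
    unfold Pool.Agent.H648BA.Inter at this
    push Not at this
    obtain ⟨n, hn, hx⟩ := this
    exact ⟨n, hn, hx⟩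
  choose n hn hx using hex
  let S : Set B := ⋃ j, ((n j).support : Set B)
  have hS : S.Countable := Set.countable_iUnion (fun j => (n j).support.countable_toSet)
  obtain ⟨μ, hμ⟩ := hB S hS
  have hA := generated_isComplete S
  obtain ⟨ε, hε, hεμ⟩ := good_bdd hup hfin hA hμ
  have htop := top_mem hA
  have key : ∀ j : ℕ, ε ≤ 1 / ((j : ℝ) + 1) * μ ⊤ := by
    intro j
    set W := ∑ b ∈ (n j).support, (n j b : ℝ) with hW
    have hWpos : 0 < W := by
      have h3 := hx j ⊤ top_ne_bot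
      have h0 : 0 ≤ ∑ b ∈ (n j).support, (if (⊤ : B) ≤ b then (n j b : ℝ) else 0) :=
        Finset.sum_nonneg (fun b _ => by split_ifs <;> positivity)
      have h1 : 0 < 1 / ((j : ℝ) + 1) * W := lt_of_le_of_lt h0 h3
      have h2 : 0 < 1 / ((j : ℝ) + 1) := by positivity
      exact (pos_iff_pos_of_mul_pos h1).mp h2
    have hSA : ∀ b ∈ (n j).support, b ∈ generated S := fun b hb =>
      subset_generated S (Set.mem_iUnion.mpr ⟨j, hb⟩)
    have hw := weighted hA hμ (fun b => (n j b : ℝ)) (n j).support hSA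
      (1 / ((j : ℝ) + 1) * W) ⊤ htop (fun x hx0 _ => by
        refine le_trans (le_of_eq ?_) (hx j x hx0).le
        apply Finset.sum_congr rfl
        intro b _
        congr)
    have hlow : ε * W ≤ ∑ b ∈ (n j).support, (n j b : ℝ) * μ (b ⊓ ⊤) := by
      rw [hW, Finset.mul_sum]
      apply Finset.sum_le_sum
      intro b hb
      rw [inf_top_eq, mul_comm]
      exact mul_le_mul_of_nonneg_left (hεμ b (hSA b hb) (hn j b hb)) (by positivity)
    have h5 : ε * W ≤ (1 / ((j : ℝ) + 1) * μ ⊤) * W := by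
      refine hlow.trans (hw.trans (le_of_eq ?_)); ring
    exact le_of_mul_le_mul_right h5 hWpos
  have hlim : Tendsto (fun j : ℕ => 1 / ((j : ℝ) + 1) * μ ⊤) atTop (𝓝 (0 * μ ⊤)) :=
    tendsto_one_div_add_atTop_nhds_zero_nat.mul_const _
  have := ge_of_tendsto' hlim key
  linarith

/-- the countably additive part is strictly positive -/
lemma ca_pos (hB : Locally B) {e : B} {N : B → ℝ≥0∞} (h0 : N ⊥ = 0)
    (hadd : ∀ a b, Disjoint a b → N (a ⊔ b) = N a + N b) (hpos : ∀ b, b ≠ ⊥ → b ≤ e → N b ≠ 0)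
    (b : B) (hb : b ≠ ⊥) (hbe : b ≤ e) : ca N b ≠ 0 := by
  intro hz
  have hex : ∀ j : ℕ, ∃ g : ℕ → B, IsPart b g ∧ ∑' k, N (g k) < ((j : ℝ≥0∞) + 1)⁻¹ := by
    intro j
    have : ca N b < ((j : ℝ≥0∞) + 1)⁻¹ := by
      rw [hz]
      apply ENNReal.inv_pos.mpr
      exact ENNReal.add_ne_top.mpr ⟨ENNReal.natCast_ne_top j, ENNReal.one_ne_top⟩
    obtain ⟨g, hg⟩ := iInf_lt_iff.mp this
    exact ⟨g.1, g.2, hg⟩
  choose g hg hlt using hex
  obtain ⟨f, c, hcne, hcle⟩ := weak_dist hB hb g fun n => (hg n).sup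
  have hN : ∀ j : ℕ, N c ≤ ((j : ℝ≥0∞) + 1)⁻¹ := by
    intro j
    calc N c ≤ N (pu (g j) (f j)) := mono_of_add hadd (hcle j)
      _ = ∑ n ∈ Finset.range (f j), N (g j n) := add_pu h0 hadd (hg j).disj _
      _ ≤ ∑' n, N (g j n) := ENNReal.sum_le_tsum _
      _ ≤ _ := (hlt j).le
  have hcb : c ≤ b := by
    refine (hcle 0).trans ?_
    rw [← (hg 0).sup, ← iSup_pu (g 0)]
    exact le_iSup (pu (g 0)) (f 0)
  apply hpos c hcne (hcb.trans hbe)
  have ht : Tendsto (fun j : ℕ => ((j : ℝ≥0∞) + 1)⁻¹) atTop (𝓝 0) := by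
    have h1 := ENNReal.tendsto_inv_nat_nhds_zero
    have h2 := (tendsto_add_atTop_iff_nat 1).mpr h1
    refine h2.congr (fun n => ?_)
    push_cast; rfl
  exact le_antisymm (ge_of_tendsto' ht hN) bot_le

/-- **Main theorem.** -/
theorem measure_below {e : B} (hcc : SigmaFiniteBelow e) (hB : Locally B) :
    ∃ μ : B → ℝ, IsMeasureOn (Set.Iic e) μ := by
  classical
  rcases subsingleton_or_nontrivial B with hsub | hnon
  · refine ⟨fun _ => 0, fun _ _ => le_rfl, fun a _ ha => absurd (Subsingleton.elim _ _) ha,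
      fun f _ _ => hasSum_zero⟩
  obtain ⟨C, hC, hup, hfin⟩ := exists_pieces hcc
  have hi : ∀ n : ℕ, ∃ δ : ℝ, 0 < δ ∧ Inter (good (C n)) δ := fun n =>
    inter_good hB (hup n) (hfin n)
  choose δ hδ hInter using hi
  have hk := fun n : ℕ => kelley (good (C n)) (δ n) (hδ n).le (hInter n)
  choose ν hν0 hν1 hνadd hνC using hk
  let N : B → ℝ≥0∞ := fun b => ∑' n, ENNReal.ofReal ((1 / 2) ^ n * ν n b)
  have hνbot : ∀ n, ν n ⊥ = 0 := by
    intro n
    have := hνadd n ⊥ ⊥ disjoint_bot_left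
    rw [sup_idem] at this
    linarith
  have h0 : N ⊥ = 0 := by simp [N, hνbot]
  have hadd : ∀ a b, Disjoint a b → N (a ⊔ b) = N a + N b := by
    intro a b hab
    simp only [N]
    rw [← ENNReal.tsum_add]
    apply tsum_congr
    intro n
    rw [hνadd n a b hab, mul_add, ENNReal.ofReal_add]
    · exact mul_nonneg (by positivity) (hν0 n a)
    · exact mul_nonneg (by positivity) (hν0 n b)
  have htop : N ⊤ ≠ ∞ := by
    have hs : Summable (fun n : ℕ => (1 / 2 : ℝ) ^ n * ν n ⊤) := by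
      simp only [hν1, mul_one]
      exact summable_geometric_two
    simp only [N]
    rw [← ENNReal.ofReal_tsum_of_nonneg (fun n => mul_nonneg (by positivity) (hν0 n ⊤)) hs]
    exact ENNReal.ofReal_ne_top
  have hfin' : ∀ b, N b ≠ ∞ := fun b =>
    ne_top_of_le_ne_top htop (mono_of_add hadd le_top)
  have hpos : ∀ b, b ≠ ⊥ → b ≤ e → N b ≠ 0 := by
    intro b hb hbe hz
    obtain ⟨n, hn⟩ := exists_good hB hC hup hb hbe
    have h1 : δ n ≤ ν n b := hνC n b hn
    simp only [N, ENNReal.tsum_eq_zero] at hz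
    have h2 := hz n
    rw [ENNReal.ofReal_eq_zero] at h2
    have h3 : 0 < (1 / 2 : ℝ) ^ n * ν n b := mul_pos (by positivity) (lt_of_lt_of_le (hδ n) h1)
    linarith
  have hcfin : ∀ b, ca N b ≠ ∞ := fun b => ne_top_of_le_ne_top (hfin' b) (ca_le_self h0 b)
  refine ⟨fun b => (ca N b).toReal, fun b _ => ENNReal.toReal_nonneg, fun b hbe hb =>
    ENNReal.toReal_pos (ca_pos hB h0 hadd hpos b hb hbe) (hcfin b), fun f _ hf => ?_⟩
  have h1 := ca_add h0 hadd hf
  have h2 : ∑' n, ca N (f n) ≠ ∞ := by rw [← h1]; exact hcfin _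
  change HasSum (fun n => (ca N (f n)).toReal) ((ca N (⨆ n, f n)).toReal)
  rw [h1, ENNReal.tsum_toReal_eq (fun n => hcfin (f n))]
  exact ENNReal.hasSum_toReal h2

end Pool.Agent.KS6_46.MA
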