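import Pool.Agent.KS6_46.MA.Main

/-!
# Structure: the σ-finite part of a Boolean algebra which is locally a measure algebra
-/

set_option autoImplicit false

namespace Pool.Agent.KS6_46.MA

open Pool.Agent.H648BA Filter Topology Function Cardinal
open scoped ENNReal

variable {B : Type*} [CompleteBooleanAlgebra B]

lemma restr {A A' : Set B} {μ : B → ℝ} (h : IsMeasureOn A μ) (hA : A' ⊆ A) :
    IsMeasureOn A' μ :=
  ⟨fun a ha => h.nonneg a (hA ha), fun a ha => h.pos a (hA ha),
    fun f hf => h.sigma_add f fun n => hA (hf n)⟩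

/-- A function is exhaustive if it tends to zero on all sequences of pairwise disjoint elements. -/
def Exhaustive (A : Set B) (g : B → ℝ) : Prop :=
  ∀ f : ℕ → B, (∀ n, f n ∈ A) → Pairwise (Disjoint on f) → Tendsto (fun n => g (f n)) atTop (𝓝 0)

lemma exhaustive_measure {A : Set B} {μ : B → ℝ} (h : IsMeasureOn A μ) : Exhaustive A μ :=
  fun f hf hd => (h.sigma_add f hf hd).summable.tendsto_atTop_zero

lemma exhaustive_outer {m : B → ℝ} (hm : IsContinuousOuterMeasure m) :
    Exhaustive Set.univ m := by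
  intro f _ hd
  let b : ℕ → B := fun k => ⨆ i, f (k + i)
  have hanti : Antitone b := by
    apply antitone_nat_of_succ_le
    intro k
    apply iSup_le
    intro i
    refine le_iSup_of_le (i + 1) (le_of_eq ?_)
    congr 1
    omega
  have hfb : ∀ k, f k ≤ b k := fun k => le_iSup_of_le 0 (by simp)
  have hinf : ⨅ k, b k = ⊥ := by
    have h1 : ∀ j, Disjoint (⨅ k, b k) (f j) := by
      intro j
      have h2 : Disjoint (b (j + 1)) (f j) := by
        rw [iSup_disjoint_iff]
        intro i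
        exact hd (by omega)
      exact h2.mono_left (iInf_le b (j + 1))
    have h3 : Disjoint (⨅ k, b k) (⨆ j, f j) := by
      rw [disjoint_iSup_iff]
      exact h1
    have h4 : (⨅ k, b k) ≤ ⨆ j, f j := by
      refine (iInf_le b 0).trans ?_
      apply iSup_le
      intro i
      exact le_iSup f (0 + i)
    exact disjoint_self.1 (h3.mono_right h4)
  have h1 := hm.cont b hanti hinf
  refine squeeze_zero (fun n => ?_) (fun n => hm.mono _ _ (hfb n)) h1
  by_cases h : f n = ⊥
  · rw [h, hm.map_bot]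
  · exact (hm.pos _ h).le

lemma finite_of_exhaustive {A : Set B} {g : B → ℝ} (hg : Exhaustive A g) {D : Set B}
    (hD : D ⊆ A) (hdis : D.PairwiseDisjoint id) {ε : ℝ} (hε : 0 < ε) (h : ∀ d ∈ D, ε ≤ g d) :
    D.Finite := by
  by_contra hinf
  have hinf' : D.Infinite := hinf
  let f : ℕ ↪ D := hinf'.natEmbedding
  have h1 := hg (fun n => (f n).1) (fun n => hD (f n).2) (by
    intro i j hij
    exact hdis (f i).2 (f j).2 fun h2 => hij (f.injective (Subtype.ext h2)))
  have h2 : ∀ n, ε ≤ g (f n).1 := fun n => h _ (f n).2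
  have h3 := ge_of_tendsto' h1 h2
  linarith

/-- an algebra with a strictly positive exhaustive function satisfies the σ-finite chain
condition -/
lemma sigmaFinite_of_exhaustive {c : B} {g : B → ℝ} (hg : Exhaustive (Set.Iic c) g)
    (hpos : ∀ b, b ≠ ⊥ → b ≤ c → 0 < g b) : SigmaFiniteBelow c := by
  refine ⟨fun n => {b | b ≠ ⊥ ∧ b ≤ c ∧ 1 / ((n : ℝ) + 1) ≤ g b}, ?_, fun n D hD hdis => ?_⟩
  · ext b
    simp only [Set.mem_iUnion, Set.mem_ofPred_eq]
    constructor
    · rintro ⟨n, h1, h2, _⟩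
      exact ⟨h1, h2⟩
    · rintro ⟨h1, h2⟩
      obtain ⟨n, hn⟩ := exists_nat_one_div_lt (hpos b h1 h2)
      exact ⟨n, h1, h2, hn.le⟩
  · exact finite_of_exhaustive hg (fun d hd => (hD hd).2.1) hdis
      (ε := 1 / ((n : ℝ) + 1)) (by positivity) fun d hd => (hD hd).2.2

lemma Exhaustive.restr {A A' : Set B} {g : B → ℝ} (h : Exhaustive A g) (hA : A' ⊆ A) :
    Exhaustive A' g := fun f hf hd => h f (fun n => hA (hf n)) hd

lemma sigmaFinite_of_measure {c : B} (h : ∃ μ : B → ℝ, IsMeasureOn (Set.Iic c) μ) :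
    SigmaFiniteBelow c := by
  obtain ⟨μ, hμ⟩ := h
  exact sigmaFinite_of_exhaustive (exhaustive_measure hμ) fun b hb hbc => hμ.pos b hbc hb

/-- all measures on countably generated complete subalgebras: the countable chain condition holds -/
lemma ccc_of_locally (hB : Locally B) {D : Set B} (hne : ∀ d ∈ D, d ≠ ⊥)
    (hdis : D.PairwiseDisjoint id) : D.Countable := by
  by_contra hunc
  have h1 : ℵ₁ ≤ #D := by
    rw [← not_lt, ← Cardinal.succ_aleph0, Order.lt_succ_iff]
    exact fun h => hunc (Cardinal.le_aleph0_iff_set_countable.1 h)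
  obtain ⟨E, hED, hE⟩ := Cardinal.le_mk_iff_exists_subset.1 h1
  have h2 : Cardinal.lift.{0} #E ≤ Cardinal.lift.{_} #(ℕ → Bool) := by
    rw [hE]
    simp only [Cardinal.lift_aleph, Cardinal.mk_pi, Cardinal.mk_bool, Cardinal.prod_const,
      Cardinal.lift_id, Cardinal.mk_nat]
    rw [Cardinal.lift_power]
    simpa using Cardinal.aleph_one_le_continuum
  obtain ⟨r⟩ := Cardinal.lift_mk_le'.1 h2
  -- the generators
  let G : ℕ → B := fun n => ⨆ d : {d : E // r d n = true}, d.1.1
  let T : B := ⨆ d : E, d.1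
  let S : Set B := insert T (Set.range G)
  obtain ⟨μ, hμ⟩ := hB S ((Set.countable_range G).insert T)
  have hA := generated_isComplete S
  have hTA : T ∈ generated S := subset_generated S (Set.mem_insert _ _)
  have hGA : ∀ n, G n ∈ generated S := fun n =>
    subset_generated S (Set.mem_insert_of_mem _ ⟨n, rfl⟩)
  have hdE : ∀ d d' : E, d ≠ d' → Disjoint d.1 d'.1 := fun d d' h =>
    hdis (hED d.2) (hED d'.2) fun h' => h (Subtype.ext h')
  have hEA : E ⊆ generated S := by
    intro d hd
    have heq : d = T ⊓ ⨅ n, (if r ⟨d, hd⟩ n = true then G n else (G n)ᶜ) := by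
      apply le_antisymm
      · refine le_inf (le_iSup (fun d : E => d.1) ⟨d, hd⟩) (le_iInf fun n => ?_)
        by_cases h : r ⟨d, hd⟩ n = true
        · rw [if_pos h]
          exact le_iSup (fun d : {d : E // r d n = true} => d.1.1) ⟨⟨d, hd⟩, h⟩
        · rw [if_neg h, le_compl_iff_disjoint_right, disjoint_iSup_iff]
          rintro ⟨d', hd'⟩
          exact hdE ⟨d, hd⟩ d' fun h' => h (h' ▸ hd')
      · rw [iSup_inf_eq]
        apply iSup_le
        intro d'
        by_cases h : (⟨d, hd⟩ : E) = d'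
        · exact inf_le_left.trans (by rw [← h])
        · have hn : ∃ n, r ⟨d, hd⟩ n ≠ r d' n := by
            by_contra hcon
            push Not at hcon
            exact h (r.injective (funext hcon))
          obtain ⟨n, hn⟩ := hn
          have h3 : Disjoint d'.1 (if r ⟨d, hd⟩ n = true then G n else (G n)ᶜ) := by
            by_cases h4 : r ⟨d, hd⟩ n = true
            · rw [if_pos h4, disjoint_iSup_iff]
              rintro ⟨d'', hd''⟩
              refine hdE d' d'' fun h' => hn ?_
              rw [h4, h', hd'']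
            · rw [if_neg h4, disjoint_compl_right_iff]
              have h5 : r d' n = true := by
                cases h6 : r d' n
                · rw [h6] at hn
                  rw [Bool.not_eq_true] at h4
                  exact absurd h4 hn
                · rfl
              exact le_iSup (fun d : {d : E // r d n = true} => d.1.1) ⟨d', h5⟩
          have h4 : d'.1 ⊓ (⨅ n, (if r ⟨d, hd⟩ n = true then G n else (G n)ᶜ)) ≤ ⊥ := by
            refine le_trans ?_ (disjoint_iff_inf_le.1 h3)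
            exact inf_le_inf_left _ (iInf_le _ n)
          exact h4.trans bot_le
    rw [heq]
    refine inf_mem hA hTA (iInf_mem hA fun n => ?_)
    by_cases h : r ⟨d, hd⟩ n = true
    · rw [if_pos h]
      exact hGA n
    · rw [if_neg h]
      exact hA.compl_mem _ (hGA n)
  -- `E` would be countable
  have h3 : E.Countable := by
    have h4 : E ⊆ ⋃ n : ℕ, {d | d ∈ E ∧ 1 / ((n : ℝ) + 1) ≤ μ d} := by
      intro d hd
      obtain ⟨n, hn⟩ := exists_nat_one_div_lt (hμ.pos d (hEA hd) (hne d (hED hd)))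
      exact Set.mem_iUnion.2 ⟨n, hd, hn.le⟩
    refine Set.Countable.mono h4 (Set.countable_iUnion fun n => Set.Finite.countable ?_)
    exact finite_of_exhaustive (exhaustive_measure hμ) (fun d hd => hEA hd.1)
      (fun d hd d' hd' h => hdis (hED hd.1) (hED hd'.1) h) (ε := 1 / ((n : ℝ) + 1))
      (by positivity) fun d hd => hd.2
  rw [← Cardinal.le_aleph0_iff_set_countable, hE] at h3
  exact absurd h3 (not_le.2 Cardinal.aleph0_lt_aleph_one)

/-- countable unions -/
lemma measure_iSup {d : ℕ → B} (h : ∀ n, ∃ μ : B → ℝ, IsMeasureOn (Set.Iic (d n)) μ) :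
    ∃ μ : B → ℝ, IsMeasureOn (Set.Iic (⨆ n, d n)) μ := by
  choose μ hμ using h
  have hμ0 : ∀ n b, 0 ≤ μ n (b ⊓ d n) := fun n b => (hμ n).nonneg _ inf_le_right
  have hbot : ∀ n, μ n ⊥ = 0 := by
    intro n
    have h := (hμ n).sigma_add (fun _ => ⊥) (fun _ => bot_le) (fun i j _ => disjoint_bot_left)
    exact (summable_const_iff (μ n ⊥)).mp h.summable
  have hmono : ∀ n b, μ n (b ⊓ d n) ≤ μ n (d n) := by
    intro n b
    let f : ℕ → B := fun k => if k = 0 then b ⊓ d n else if k = 1 then d n \ b else ⊥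
    have hf : ∀ k, f k ∈ Set.Iic (d n) := by
      intro k
      simp only [f]
      split_ifs
      · exact inf_le_right
      · exact sdiff_le
      · exact bot_le
    have hd01 : Disjoint (b ⊓ d n) (d n \ b) :=
      (disjoint_sdiff_self_right (x := b) (y := d n)).mono_left inf_le_left
    have hd : Pairwise (Disjoint on f) := by
      intro i j hij
      simp only [onFun, f]
      split_ifs <;> first | exact disjoint_bot_left | exact disjoint_bot_right | exact hd01 | exact hd01.symm | omega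
    have hs := (hμ n).sigma_add f hf hd
    have hsup : ⨆ k, f k = d n := by
      apply le_antisymm
      · exact iSup_le fun k => hf k
      · have h1 : d n = b ⊓ d n ⊔ d n \ b := by
          rw [inf_comm, sup_inf_sdiff]
        calc d n = b ⊓ d n ⊔ d n \ b := h1
          _ ≤ ⨆ k, f k := sup_le (le_iSup_of_le 0 (by simp [f])) (le_iSup_of_le 1 (by simp [f]))
    rw [hsup] at hs
    have h1 := hs.summable.sum_le_tsum {0} (fun k _ => (hμ n).nonneg _ (hf k))
    rw [hs.tsum_eq, Finset.sum_singleton] at h1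
    simpa [f] using h1
  have hdn : ∀ n, 0 ≤ μ n (d n) := fun n => (hμ n).nonneg _ le_rfl
  let W : ℕ → ℝ := fun n => (1 / 2 : ℝ) ^ n / (μ n (d n) + 1)
  have hW : ∀ n, 0 < W n := fun n => div_pos (by positivity) (by linarith [hdn n])
  let N : B → ℝ≥0∞ := fun b => ∑' n, ENNReal.ofReal (W n * μ n (b ⊓ d n))
  have hfin : ∀ b, N b ≠ ∞ := by
    intro b
    have h1 : N b ≤ ∑' n : ℕ, ENNReal.ofReal ((1 / 2 : ℝ) ^ n) := by
      apply ENNReal.tsum_le_tsum
      intro n
      apply ENNReal.ofReal_le_ofReal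
      have h2 : 0 < μ n (d n) + 1 := by linarith [hdn n]
      show (1 / 2 : ℝ) ^ n / (μ n (d n) + 1) * μ n (b ⊓ d n) ≤ (1 / 2) ^ n
      rw [div_mul_eq_mul_div, div_le_iff₀ h2]
      have h3 := hmono n b
      have h4 : (0 : ℝ) < (1 / 2) ^ n := by positivity
      nlinarith
    refine ne_top_of_le_ne_top ?_ h1
    rw [← ENNReal.ofReal_tsum_of_nonneg (fun n => by positivity) summable_geometric_two]
    exact ENNReal.ofReal_ne_top
  have hadd : ∀ f : ℕ → B, Pairwise (Disjoint on f) → N (⨆ k, f k) = ∑' k, N (f k) := by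
    intro f hf
    simp only [N]
    rw [ENNReal.tsum_comm]
    apply tsum_congr
    intro n
    have h1 := (hμ n).sigma_add (fun k => f k ⊓ d n) (fun k => inf_le_right)
      (fun i j hij => (hf hij).mono inf_le_left inf_le_left)
    rw [← iSup_inf_eq] at h1
    have h2 := h1.mul_left (W n)
    rw [← h2.tsum_eq, ENNReal.ofReal_tsum_of_nonneg
      (fun k => mul_nonneg (hW n).le (hμ0 n _)) h2.summable]
  refine ⟨fun b => (N b).toReal, fun b _ => ENNReal.toReal_nonneg, fun b hb hne => ?_,
    fun f _ hf => ?_⟩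
  · refine ENNReal.toReal_pos ?_ (hfin b)
    intro hz
    simp only [N, ENNReal.tsum_eq_zero] at hz
    apply hne
    have h1 : b = ⨆ n, b ⊓ d n := by
      rw [← inf_iSup_eq]
      exact (inf_eq_left.2 hb).symm
    rw [h1, iSup_eq_bot]
    intro n
    by_contra h2
    have h3 := (hμ n).pos (b ⊓ d n) inf_le_right h2
    have h4 := hz n
    rw [ENNReal.ofReal_eq_zero] at h4
    have h5 := mul_pos (hW n) h3
    linarith
  · have h1 := hadd f hf
    have h2 : ∑' n, N (f n) ≠ ∞ := by rw [← h1]; exact hfin _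
    change HasSum (fun n => (N (f n)).toReal) ((N (⨆ n, f n)).toReal)
    rw [h1, ENNReal.tsum_toReal_eq (fun n => hfin (f n))]
    exact ENNReal.hasSum_toReal h2

/-- **The structure theorem.** -/
theorem structure_thm (hB : Locally B) : ∃ b₀ : B, ∀ c : B,
    ((∃ μ : B → ℝ, IsMeasureOn (Set.Iic c) μ) ↔ c ≤ b₀) ∧ (SigmaFiniteBelow c ↔ c ≤ b₀) := by
  have hiff : ∀ c : B, SigmaFiniteBelow c ↔ ∃ μ : B → ℝ, IsMeasureOn (Set.Iic c) μ := fun c =>
    ⟨fun h => measure_below h hB, sigmaFinite_of_measure⟩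
  suffices h : ∃ b₀ : B, ∀ c : B, (∃ μ : B → ℝ, IsMeasureOn (Set.Iic c) μ) ↔ c ≤ b₀ by
    obtain ⟨b₀, hb₀⟩ := h
    exact ⟨b₀, fun c => ⟨hb₀ c, (hiff c).trans (hb₀ c)⟩⟩
  have hex : ∃ D : Set B, Maximal (fun D : Set B => (∀ d ∈ D, d ≠ ⊥ ∧
      ∃ μ : B → ℝ, IsMeasureOn (Set.Iic d) μ) ∧ D.PairwiseDisjoint id) D := by
    apply zorn_subset {D : Set B | (∀ d ∈ D, d ≠ ⊥ ∧
      ∃ μ : B → ℝ, IsMeasureOn (Set.Iic d) μ) ∧ D.PairwiseDisjoint id}
    intro 𝒞 h𝒞 hchain
    refine ⟨⋃₀ 𝒞, ⟨?_, ?_⟩, fun s hs => Set.subset_sUnion_of_mem hs⟩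
    · rintro d ⟨D, hD, hd⟩
      exact (h𝒞 hD).1 d hd
    · rintro d ⟨D, hD, hd⟩ d' ⟨D', hD', hd'⟩ hne
      rcases hchain.total hD hD' with h | h
      · exact (h𝒞 hD').2 (h hd) hd' hne
      · exact (h𝒞 hD).2 hd (h hd') hne
  obtain ⟨D, ⟨hD, hdis⟩, hmax⟩ := hex
  have hDc : D.Countable := ccc_of_locally hB (fun d hd => (hD d hd).1) hdis
  refine ⟨sSup D, fun c => ⟨fun hc => ?_, fun hc => ?_⟩⟩
  · obtain ⟨μ, hμ⟩ := hc
    by_contra hcon
    have hne : c \ sSup D ≠ ⊥ := fun h => hcon (sdiff_eq_bot_iff.1 h)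
    have hdisj : ∀ d ∈ D, Disjoint d (c \ sSup D) := fun d hd =>
      (disjoint_sdiff_self_right (x := sSup D) (y := c)).mono_left (le_sSup hd)
    have hmem : c \ sSup D ∈ D := by
      refine hmax (y := insert (c \ sSup D) D) ⟨?_, ?_⟩ (Set.subset_insert _ _)
        (Set.mem_insert _ _)
      · rintro d (rfl | hd)
        · exact ⟨hne, μ, restr hμ (Set.Iic_subset_Iic.2 sdiff_le)⟩
        · exact hD d hd
      · rintro d (rfl | hd) d' (rfl | hd') hne'
        · exact absurd rfl hne'
        · exact (hdisj d' hd').symm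
        · exact hdisj d hd
        · exact hdis hd hd' hne'
    exact hne (disjoint_self.1 (hdisj _ hmem))
  · have h1 : ∃ μ : B → ℝ, IsMeasureOn (Set.Iic (sSup D)) μ := by
      rcases D.eq_empty_or_nonempty with h | h
      · refine ⟨fun _ => 0, fun _ _ => le_rfl, fun a ha hne => ?_, fun f _ _ => hasSum_zero⟩
        rw [h, sSup_empty] at ha
        exact absurd (le_bot_iff.1 ha) hne
      · obtain ⟨e, he⟩ := hDc.exists_eq_range h
        have h2 : sSup D = ⨆ n, e n := by rw [he]; rfl
        rw [h2]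
        exact measure_iSup fun n => (hD (e n) (he ▸ ⟨n, rfl⟩)).2
    obtain ⟨μ, hμ⟩ := h1
    exact ⟨μ, restr hμ (Set.Iic_subset_Iic.2 hc)⟩

end Pool.Agent.KS6_46.MA
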