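import Pool.Graph.R_pool_sql_team_seeded_620a6dc7.H648_BA.Kelley
import Pool.Graph.R_pool_sql_team_seeded_620a6dc7.H648_BA.Sigma

/-!
# Measures on complete subalgebras

The elementary facts on measures on a complete subalgebra are copied from the library
(`Results/MP_2d6919_lc/ContinuousOuterMeasure`).
-/

set_option autoImplicit false

namespace Pool.Agent.KS6_46.MA

open Pool.Agent.H648BA Filter Topology Function
open scoped ENNReal

variable {B : Type*} [CompleteBooleanAlgebra B]

lemma generated_isComplete (S : Set B) : IsCompleteSubalgebra (generated S) := by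
  refine ⟨fun a ha => ?_, fun T hT => ?_, fun T hT => ?_⟩
  · intro A hA; exact hA.1.compl_mem a (ha A hA)
  · intro A hA; exact hA.1.sSup_mem T (fun x hx => hT hx A hA)
  · intro A hA; exact hA.1.sInf_mem T (fun x hx => hT hx A hA)

lemma subset_generated (S : Set B) : S ⊆ generated S := fun _ hx _ hA => hA.2 hx

section sub

variable {A : Set B} (hA : IsCompleteSubalgebra A)
include hA

lemma bot_mem : (⊥ : B) ∈ A := by
  have := hA.sSup_mem ∅ (Set.empty_subset _)
  simpa using this

lemma sup_mem {a b : B} (ha : a ∈ A) (hb : b ∈ A) : a ⊔ b ∈ A := by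
  have := hA.sSup_mem {a, b} (by rintro x (rfl | rfl) <;> assumption)
  simpa using this

lemma inf_mem {a b : B} (ha : a ∈ A) (hb : b ∈ A) : a ⊓ b ∈ A := by
  have := hA.sInf_mem {a, b} (by rintro x (rfl | rfl) <;> assumption)
  simpa using this

lemma sdiff_mem {a b : B} (ha : a ∈ A) (hb : b ∈ A) : a \ b ∈ A := by
  rw [sdiff_eq]; exact inf_mem hA ha (hA.compl_mem b hb)

lemma top_mem : (⊤ : B) ∈ A := by
  have := hA.compl_mem ⊥ (bot_mem hA)
  simpa using this

lemma iSup_mem {f : ℕ → B} (hf : ∀ n, f n ∈ A) : ⨆ n, f n ∈ A :=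
  hA.sSup_mem _ (by rintro x ⟨n, rfl⟩; exact hf n)

lemma iInf_mem {f : ℕ → B} (hf : ∀ n, f n ∈ A) : ⨅ n, f n ∈ A :=
  hA.sInf_mem _ (by rintro x ⟨n, rfl⟩; exact hf n)

lemma pu_mem {f : ℕ → B} (hf : ∀ n, f n ∈ A) (K : ℕ) : pu f K ∈ A := by
  induction K with
  | zero => simpa [pu] using bot_mem hA
  | succ K ih => rw [pu_succ]; exact sup_mem hA (hf K) ih

variable {μ : B → ℝ} (hμ : IsMeasureOn A μ)
include hμ

lemma meas_bot : μ ⊥ = 0 := by
  have h := hμ.sigma_add (fun _ => ⊥) (fun _ => bot_mem hA) (fun i j _ => disjoint_bot_left)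
  have h1 := h.summable
  exact (summable_const_iff (μ ⊥)).mp h1

lemma meas_add {a b : B} (ha : a ∈ A) (hb : b ∈ A) (hab : Disjoint a b) : μ (a ⊔ b) = μ a + μ b := by
  let f : ℕ → B := fun n => if n = 0 then a else if n = 1 then b else ⊥
  have hf : ∀ n, f n ∈ A := by
    intro n; simp only [f]; split_ifs
    · exact ha
    · exact hb
    · exact bot_mem hA
  have hd : Pairwise (Disjoint on f) := by
    intro i j hij
    simp only [onFun, f]
    split_ifs <;> first | exact disjoint_bot_left | exact disjoint_bot_right | exact hab | exact hab.symm | omega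
  have h := hμ.sigma_add f hf hd
  have hs : ⨆ n, f n = a ⊔ b := by
    apply le_antisymm
    · apply iSup_le; intro n; simp only [f]; split_ifs
      · exact le_sup_left
      · exact le_sup_right
      · exact bot_le
    · apply sup_le
      · exact le_iSup_of_le 0 (by simp [f])
      · exact le_iSup_of_le 1 (by simp [f])
  rw [hs] at h
  have h2 : HasSum (fun n => μ (f n)) (∑ n ∈ Finset.range 2, μ (f n)) := by
    apply hasSum_sum_of_ne_finset_zero
    intro n hn
    have : 2 ≤ n := by
      rw [Finset.mem_range] at hn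
      omega
    have e : f n = ⊥ := by simp only [f]; split_ifs <;> first | omega | rfl
    rw [e, meas_bot hA hμ]
  have h3 := h.unique h2
  rw [h3, Finset.sum_range_succ, Finset.sum_range_succ]
  simp [f]

lemma meas_mono {a b : B} (ha : a ∈ A) (hb : b ∈ A) (hab : a ≤ b) : μ a ≤ μ b := by
  have h : b = a ⊔ (b \ a) := by rw [sup_sdiff_cancel_right hab]
  rw [h, meas_add hA hμ ha (sdiff_mem hA hb ha) disjoint_sdiff_self_right]
  have := hμ.nonneg _ (sdiff_mem hA hb ha)
  linarith

lemma meas_iSup_le {f : ℕ → B} (hf : ∀ n, f n ∈ A) {s : ℕ → ℝ} (hs : Summable s)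
    (hfs : ∀ n, μ (f n) ≤ s n) : μ (⨆ n, f n) ≤ ∑' n, s n := by
  let g : ℕ → B := fun n => f n \ pu f n
  have hgA : ∀ n, g n ∈ A := fun n => sdiff_mem hA (hf n) (pu_mem hA hf n)
  have hle : ∀ {i j : ℕ}, i < j → Disjoint (g i) (g j) := by
    intro i j hij
    have h1 : g i ≤ pu f j := by
      refine sdiff_le.trans ?_
      exact Finset.le_sup (f := f) (Finset.mem_range.mpr hij)
    exact (disjoint_sdiff_self_right (x := pu f j) (y := f j)).mono_left h1
  have hd : Pairwise (Disjoint on g) := by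
    intro i j hij
    rcases lt_or_gt_of_ne hij with h | h
    · exact hle h
    · exact (hle h).symm
  have hpu : ∀ n, pu g n = pu f n := by
    intro n
    induction n with
    | zero => rfl
    | succ n ih => rw [pu_succ, pu_succ, ih]; exact sdiff_sup_self (pu f n) (f n)
  have hsup : ⨆ n, g n = ⨆ n, f n := by
    rw [← iSup_pu g, ← iSup_pu f]
    exact iSup_congr hpu
  have h := hμ.sigma_add g hgA hd
  rw [hsup] at h
  have hgs : ∀ n, μ (g n) ≤ s n := fun n => (meas_mono hA hμ (hgA n) (hf n) sdiff_le).trans (hfs n)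
  rw [← h.tsum_eq]
  exact h.summable.tsum_le_tsum hgs hs

open Classical in
/-- A bound for the average of `μ` over a weighted family, by the largest weight below which a nonzero
element lies. -/
lemma weighted (w : B → ℝ) (F : Finset B) : (∀ b ∈ F, b ∈ A) → ∀ (M : ℝ) (y : B), y ∈ A →
    (∀ x : B, x ≠ ⊥ → x ≤ y → ∑ b ∈ F, (if x ≤ b then w b else 0) ≤ M) →
    ∑ b ∈ F, w b * μ (b ⊓ y) ≤ M * μ y := by
  induction F using Finset.induction_on with
  | empty =>
    intro _ M y hy h
    by_cases hyb : y = ⊥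
    · rw [hyb, meas_bot hA hμ]; simp
    · have := h y hyb le_rfl
      simp only [Finset.sum_empty] at this ⊢
      exact mul_nonneg this (hμ.nonneg y hy)
  | insert c F hc ih =>
    intro hF M y hy h
    have hcA : c ∈ A := hF c (Finset.mem_insert_self c F)
    have hFA : ∀ b ∈ F, b ∈ A := fun b hb => hF b (Finset.mem_insert_of_mem hb)
    have h1 := ih hFA (M - w c) (y ⊓ c) (inf_mem hA hy hcA) (by
      intro x hx hxy
      have := h x hx (hxy.trans inf_le_left)
      rw [Finset.sum_insert hc, if_pos (hxy.trans inf_le_right)] at this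
      linarith)
    have h2 := ih hFA M (y \ c) (sdiff_mem hA hy hcA) (by
      intro x hx hxy
      have := h x hx (hxy.trans sdiff_le)
      have hnot : ¬ x ≤ c := by
        intro hxc
        apply hx
        have hd : Disjoint (y \ c) c := disjoint_sdiff_self_left
        exact le_bot_iff.mp (hd hxy hxc)
      rw [Finset.sum_insert hc, if_neg hnot] at this
      linarith)
    have hsplit : ∀ b ∈ A, μ (b ⊓ y) = μ (b ⊓ (y ⊓ c)) + μ (b ⊓ (y \ c)) := by
      intro b hb
      rw [← meas_add hA hμ (inf_mem hA hb (inf_mem hA hy hcA)) (inf_mem hA hb (sdiff_mem hA hy hcA))]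
      · rw [← inf_sup_left, sup_inf_sdiff]
      · exact (disjoint_sdiff_self_right (x := c) (y := y)).mono (inf_le_right.trans inf_le_right) inf_le_right
    have hy2 : μ y = μ (y ⊓ c) + μ (y \ c) := by
      rw [← meas_add hA hμ (inf_mem hA hy hcA) (sdiff_mem hA hy hcA)]
      · rw [sup_inf_sdiff]
      · exact (disjoint_sdiff_self_right (x := c) (y := y)).mono inf_le_right le_rfl
    rw [Finset.sum_insert hc]
    have h3 : ∑ b ∈ F, w b * μ (b ⊓ y) = ∑ b ∈ F, w b * μ (b ⊓ (y ⊓ c)) + ∑ b ∈ F, w b * μ (b ⊓ (y \ c)) := by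
      rw [← Finset.sum_add_distrib]
      apply Finset.sum_congr rfl
      intro b hb
      rw [hsplit b (hFA b hb)]; ring
    rw [h3, inf_comm c y, hy2]
    nlinarith

/-- measures are continuous from below -/
lemma tendsto_pu {f : ℕ → B} (hf : ∀ n, f n ∈ A) :
    Tendsto (fun K => μ ((⨆ n, f n) \ pu f K)) atTop (𝓝 0) := by
  let g : ℕ → B := fun n => f n \ pu f n
  have hgA : ∀ n, g n ∈ A := fun n => sdiff_mem hA (hf n) (pu_mem hA hf n)
  have hle : ∀ {i j : ℕ}, i < j → Disjoint (g i) (g j) := by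
    intro i j hij
    have h1 : g i ≤ pu f j := by
      refine sdiff_le.trans ?_
      exact Finset.le_sup (f := f) (Finset.mem_range.mpr hij)
    exact (disjoint_sdiff_self_right (x := pu f j) (y := f j)).mono_left h1
  have hd : Pairwise (Disjoint on g) := by
    intro i j hij
    rcases lt_or_gt_of_ne hij with h | h
    · exact hle h
    · exact (hle h).symm
  have hpu : ∀ n, pu g n = pu f n := by
    intro n
    induction n with
    | zero => rfl
    | succ n ih => rw [pu_succ, pu_succ, ih]; exact sdiff_sup_self (pu f n) (f n)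
  have hsup : ⨆ n, g n = ⨆ n, f n := by
    rw [← iSup_pu g, ← iSup_pu f]
    exact iSup_congr hpu
  have h := (hμ.sigma_add g hgA hd).tendsto_sum_nat
  rw [hsup] at h
  have hsum : ∀ K, ∑ n ∈ Finset.range K, μ (g n) = μ (pu f K) := by
    intro K
    rw [← hpu K]
    induction K with
    | zero => simp [pu, meas_bot hA hμ]
    | succ K ih =>
      rw [Finset.sum_range_succ, ih, pu_succ, meas_add hA hμ (hgA K) (pu_mem hA hgA K)
        (disjoint_pu hd K), add_comm]
  have hdiff : ∀ K, μ ((⨆ n, f n) \ pu f K) = μ (⨆ n, f n) - μ (pu f K) := by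
    intro K
    have hle : pu f K ≤ ⨆ n, f n := by
      rw [← iSup_pu f]
      exact le_iSup (pu f) K
    have h1 := meas_add hA hμ (pu_mem hA hf K)
      (sdiff_mem hA (iSup_mem hA hf) (pu_mem hA hf K)) disjoint_sdiff_self_right
    rw [sup_sdiff_cancel_right hle] at h1
    linarith
  have h2 : Tendsto (fun K => μ (⨆ n, f n) - μ (pu f K)) atTop (𝓝 (μ (⨆ n, f n) - μ (⨆ n, f n))) := by
    refine tendsto_const_nhds.sub ?_
    refine h.congr hsum
  rw [sub_self] at h2
  exact h2.congr fun K => (hdiff K).symm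

/-- a rapidly decreasing sequence converges to `⊥` -/
lemma iInf_tails {a : ℕ → B} (haA : ∀ n, a n ∈ A) (hμa : ∀ n, μ (a n) < (1 / 2 : ℝ) ^ n) :
    ⨅ k, ⨆ i, a (k + i) = ⊥ := by
  let b : ℕ → B := fun k => ⨆ i, a (k + i)
  have hbA : ∀ k, b k ∈ A := fun k => iSup_mem hA (fun i => haA _)
  have hbμ : ∀ k, μ (b k) ≤ (1 / 2 : ℝ) ^ k * 2 := by
    intro k
    have hs : HasSum (fun i : ℕ => (1 / 2 : ℝ) ^ k * (1 / 2) ^ i) ((1 / 2) ^ k * 2) :=
      hasSum_geometric_two.mul_left _
    have h := meas_iSup_le hA hμ (fun i => haA (k + i)) hs.summable (fun i => by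
      rw [← pow_add]; exact (hμa (k + i)).le)
    rwa [hs.tsum_eq] at h
  show ⨅ k, b k = ⊥
  by_contra hne
  have hpos := hμ.pos _ (iInf_mem hA hbA) hne
  have hle : ∀ k, μ (⨅ k, b k) ≤ (1 / 2 : ℝ) ^ k * 2 := fun k =>
    (meas_mono hA hμ (iInf_mem hA hbA) (hbA k) (iInf_le b k)).trans (hbμ k)
  have ht0 : Tendsto (fun k : ℕ => (1 / 2 : ℝ) ^ k * 2) atTop (𝓝 (0 * 2)) :=
    (tendsto_pow_atTop_nhds_zero_of_lt_one (by norm_num) (by norm_num)).mul_const 2
  have := ge_of_tendsto' ht0 hle
  linarith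

end sub

/-- every countable subset lies in a complete subalgebra with a measure -/
def Locally (B : Type*) [CompleteBooleanAlgebra B] : Prop :=
  ∀ S : Set B, S.Countable → ∃ μ : B → ℝ, IsMeasureOn (generated S) μ

/-- Weak distributivity, in the form needed. -/
lemma weak_dist (h : Locally B) {a : B} (ha : a ≠ ⊥) (x : ℕ → ℕ → B)
    (hx : ∀ n, ⨆ m, x n m = a) : ∃ f : ℕ → ℕ, ∃ c : B, c ≠ ⊥ ∧ ∀ n, c ≤ pu (x n) (f n) := by
  let S : Set B := Set.range fun p : ℕ × ℕ => x p.1 p.2
  obtain ⟨μ, hμ⟩ := h S (Set.countable_range _)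
  have hA := generated_isComplete S
  have hxA : ∀ n m, x n m ∈ generated S := fun n m => subset_generated S ⟨(n, m), rfl⟩
  have haA : a ∈ generated S := by
    rw [← hx 0]
    exact iSup_mem hA (hxA 0)
  have hapos := hμ.pos a haA ha
  have h1 : ∀ n, ∃ K, μ (a \ pu (x n) K) < μ a / 4 * (1 / 2) ^ n := by
    intro n
    have ht := tendsto_pu hA hμ (hxA n)
    rw [hx n] at ht
    have hpos' : 0 < μ a / 4 * (1 / 2) ^ n := by positivity
    exact (ht.eventually (gt_mem_nhds hpos')).exists
  choose f hf using h1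
  have hdA : ∀ n, a \ pu (x n) (f n) ∈ generated S := fun n =>
    sdiff_mem hA haA (pu_mem hA (hxA n) _)
  have hs : HasSum (fun n : ℕ => μ a / 4 * (1 / 2 : ℝ) ^ n) (μ a / 4 * 2) :=
    hasSum_geometric_two.mul_left _
  have h2 := meas_iSup_le hA hμ hdA hs.summable fun n => (hf n).le
  rw [hs.tsum_eq] at h2
  refine ⟨f, a \ ⨆ n, a \ pu (x n) (f n), ?_, fun n => ?_⟩
  · intro hbot
    rw [sdiff_eq_bot_iff] at hbot
    have h3 := meas_mono hA hμ haA (iSup_mem hA hdA) hbot
    linarith
  · have h3 : a \ (⨆ n, a \ pu (x n) (f n)) ≤ a \ (a \ pu (x n) (f n)) :=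
      sdiff_le_sdiff_left (le_iSup (fun n => a \ pu (x n) (f n)) n)
    refine h3.trans ?_
    rw [sdiff_sdiff_right_self]
    exact inf_le_right

end Pool.Agent.KS6_46.MA
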